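import Mathlib

/-!
# Bala's supercongruence `a(p) ≡ 1 (mod p ^ 5)`

For `1 ≤ j < p` put `A_j = C(p-1, j-1) C(p+j-1, j-1)`, which is `± 1` modulo `p ^ 2`. The `j`-th
summand `T_j` of `a(p)` satisfies `j ^ 4 T_j = p ^ 3 (p - j) A_j ^ 2`, so that the claim is
`∑ (p j ^ (-4) - j ^ (-3)) = 0` modulo `p ^ 2`. Twice this sum is `5 p ∑ j ^ (-4)`, as one sees
on replacing `j` by `p - j`, and this vanishes modulo `p ^ 2`.
-/

namespace Pool.Agent.Results.MP_558e64_nt.BalaSupercongruence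

open Finset

/-- The sequence `a(0) = 1`, `a(n) = ∑_{j < n} C(n, j) C(n-1, j) C(n+j-1, j) ^ 2`. -/
def a (n : ℕ) : ℕ :=
  if n = 0 then 1 else
    ∑ j ∈ range n, n.choose j * (n - 1).choose j * (n + j - 1).choose j ^ 2

/-- `j C(p, j) = p C(p-1, j-1)`. -/
lemma choose_one (p j : ℕ) : (j + 1) * (p + 1).choose (j + 1) = (p + 1) * p.choose j := by
  have := Nat.add_one_mul_choose_eq p j
  linarith

/-- `j C(p+j-1, j) = p C(p+j-1, j-1)`. -/
lemma choose_two (p j : ℕ) :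
    (j + 1) * (p + (j + 1)).choose (j + 1) = (p + 1) * (p + (j + 1)).choose j := by
  have h1 := Nat.choose_succ_right_eq (p + (j + 1)) j
  rw [show p + (j + 1) - j = p + 1 by omega] at h1
  linarith

/-- `j C(p-1, j) = (p - j) C(p-1, j-1)` over the integers. -/
lemma choose_three (p j : ℕ) :
    ((j : ℤ) + 1) * (p.choose (j + 1) : ℤ) = ((p : ℤ) - j) * (p.choose j : ℤ) := by
  rcases le_or_gt j p with h | h
  · have h1 := Nat.choose_succ_right_eq p j
    have h2 : ((p.choose (j + 1) * (j + 1) : ℕ) : ℤ) = ((p.choose j * (p - j) : ℕ) : ℤ) := by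
      rw [h1]
    push_cast [h] at h2
    linarith
  · rw [Nat.choose_eq_zero_of_lt h, Nat.choose_eq_zero_of_lt (by omega : p < j + 1)]
    simp

/-- `A_{j+1}` for the prime `p + 1`. -/
def A (p j : ℕ) : ℤ := (p.choose j : ℤ) * ((p + (j + 1)).choose j : ℤ)

lemma A_zero (p : ℕ) : A p 0 = 1 := by simp [A]

lemma A_succ (p j : ℕ) :
    ((j : ℤ) + 1) ^ 2 * A p (j + 1) = (((p : ℤ) + 1) ^ 2 - ((j : ℤ) + 1) ^ 2) * A p j := by
  have h1 := choose_three p j
  have h2 : ((j : ℤ) + 1) * ((p + (j + 1 + 1)).choose (j + 1) : ℤ) =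
      ((p : ℤ) + j + 2) * ((p + (j + 1)).choose j : ℤ) := by
    have h3 := Nat.add_one_mul_choose_eq (p + (j + 1)) j
    have h4 : (((p + (j + 1) + 1) * (p + (j + 1)).choose j : ℕ) : ℤ) =
        (((p + (j + 1) + 1).choose (j + 1) * (j + 1) : ℕ) : ℤ) := congrArg (Nat.cast : ℕ → ℤ) h3
    rw [show p + (j + 1 + 1) = p + (j + 1) + 1 by ring]
    push_cast at h4
    linarith
  unfold A
  calc ((j : ℤ) + 1) ^ 2 * ((p.choose (j + 1) : ℤ) * ((p + (j + 1 + 1)).choose (j + 1) : ℤ))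
      = (((j : ℤ) + 1) * (p.choose (j + 1) : ℤ)) *
        (((j : ℤ) + 1) * ((p + (j + 1 + 1)).choose (j + 1) : ℤ)) := by ring
    _ = (((p : ℤ) - j) * (p.choose j : ℤ)) *
        (((p : ℤ) + j + 2) * ((p + (j + 1)).choose j : ℤ)) := by rw [h1, h2]
    _ = _ := by ring

/-- The summand of `a (p + 1)` for the index `j + 1`. -/
def T (p j : ℕ) : ℤ :=
  ((p + 1).choose (j + 1) : ℤ) * (p.choose (j + 1) : ℤ) * ((p + (j + 1)).choose (j + 1) : ℤ) ^ 2

lemma T_eq (p j : ℕ) :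
    ((j : ℤ) + 1) ^ 4 * T p j = ((p : ℤ) + 1) ^ 3 * (((p : ℤ) - j) * A p j ^ 2) := by
  have h1 : ((j : ℤ) + 1) * ((p + 1).choose (j + 1) : ℤ) = ((p : ℤ) + 1) * (p.choose j : ℤ) := by
    exact_mod_cast choose_one p j
  have h2 : ((j : ℤ) + 1) * ((p + (j + 1)).choose (j + 1) : ℤ) =
      ((p : ℤ) + 1) * ((p + (j + 1)).choose j : ℤ) := by
    exact_mod_cast choose_two p j
  have h3 := choose_three p j
  unfold T A
  calc ((j : ℤ) + 1) ^ 4 * (((p + 1).choose (j + 1) : ℤ) * (p.choose (j + 1) : ℤ) *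
        ((p + (j + 1)).choose (j + 1) : ℤ) ^ 2)
      = (((j : ℤ) + 1) * ((p + 1).choose (j + 1) : ℤ)) *
        (((j : ℤ) + 1) * (p.choose (j + 1) : ℤ)) *
        (((j : ℤ) + 1) * ((p + (j + 1)).choose (j + 1) : ℤ)) ^ 2 := by ring
    _ = (((p : ℤ) + 1) * (p.choose j : ℤ)) * (((p : ℤ) - j) * (p.choose j : ℤ)) *
        (((p : ℤ) + 1) * ((p + (j + 1)).choose j : ℤ)) ^ 2 := by rw [h1, h2, h3]
    _ = _ := by ring

lemma a_eq (p : ℕ) : (a (p + 1) : ℤ) = 1 + ∑ j ∈ range p, T p j := by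
  unfold a
  rw [if_neg (by omega), Finset.sum_range_succ']
  push_cast
  rw [add_comm]
  congr 1
  · simp
  · refine Finset.sum_congr rfl fun j _ => ?_
    unfold T
    rw [show p + 1 + (j + 1) - 1 = p + (j + 1) by omega]

section

variable {p : ℕ}

/-- In the following `p + 1` is the prime. -/
lemma unit_of (hp : (p + 1).Prime) {j : ℕ} (hj : j < p) :
    ((j : ZMod ((p + 1) ^ 2)) + 1) * ((j : ZMod ((p + 1) ^ 2)) + 1)⁻¹ = 1 := by
  have hc : Nat.Coprime (j + 1) ((p + 1) ^ 2) := by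
    apply Nat.Coprime.pow_right
    rw [Nat.coprime_comm, Nat.Prime.coprime_iff_not_dvd hp]
    intro h
    have := Nat.le_of_dvd (by omega) h
    omega
  have := ZMod.coe_mul_inv_eq_one (j + 1) hc
  push_cast at this
  exact this

lemma A_mod (hp : (p + 1).Prime) (j : ℕ) (hj : j ≤ p) :
    ((A p j : ℤ) : ZMod ((p + 1) ^ 2)) ^ 2 = 1 := by
  have hsq : (((p : ℤ) + 1 : ℤ) : ZMod ((p + 1) ^ 2)) ^ 2 = 0 := by
    have : (((p + 1) ^ 2 : ℕ) : ZMod ((p + 1) ^ 2)) = 0 := ZMod.natCast_self _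
    push_cast at this ⊢
    exact this
  have key : ∀ j ≤ p, ((A p j : ℤ) : ZMod ((p + 1) ^ 2)) = (-1) ^ j := by
    intro j
    induction j with
    | zero => intro _; simp [A_zero]
    | succ j ih =>
      intro hj
      have ih' := ih (by omega)
      have hu := unit_of hp (show j < p by omega)
      have h1 := congrArg (Int.cast : ℤ → ZMod ((p + 1) ^ 2)) (A_succ p j)
      push_cast at h1 hsq
      rw [hsq, ih'] at h1
      set x := (j : ZMod ((p + 1) ^ 2)) + 1 with hx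
      have h2 : x ^ 2 * (x⁻¹) ^ 2 = 1 := by rw [← mul_pow, hu, one_pow]
      calc ((A p (j + 1) : ℤ) : ZMod ((p + 1) ^ 2))
          = (x ^ 2 * (x⁻¹) ^ 2) * (A p (j + 1) : ℤ) := by rw [h2, one_mul]
        _ = (x⁻¹) ^ 2 * (x ^ 2 * (A p (j + 1) : ℤ)) := by ring
        _ = (x⁻¹) ^ 2 * ((0 - x ^ 2) * (-1) ^ j) := by rw [h1]
        _ = (x ^ 2 * (x⁻¹) ^ 2) * (-1) ^ (j + 1) := by ring
        _ = (-1) ^ (j + 1) := by rw [h2, one_mul]
  rw [key j hj, ← pow_mul, mul_comm, pow_mul]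
  simp

/-- The reduction of `x` modulo the prime determines `(p + 1) x`. -/
lemma mul_eq_zero_of_cast {q : ℕ} (hq : q.Prime) (x : ZMod (q ^ 2))
    (h : ZMod.castHom (Dvd.intro_left (q ^ 1) (by ring) : q ∣ q ^ 2) (ZMod q) x = 0) :
    (q : ZMod (q ^ 2)) * x = 0 := by
  have : NeZero (q ^ 2) := ⟨pow_ne_zero _ hq.ne_zero⟩
  have h1 : (x.val : ZMod (q ^ 2)) = x := ZMod.natCast_zmod_val x
  rw [← h1, map_natCast, ZMod.natCast_eq_zero_iff] at h
  obtain ⟨k, hk⟩ := h
  rw [← h1, hk]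
  have h2 : ((q ^ 2 : ℕ) : ZMod (q ^ 2)) = 0 := ZMod.natCast_self _
  push_cast at h2 ⊢
  rw [← mul_assoc, ← pow_two, h2, zero_mul]

/-- `∑ j ^ (-4) = 0` modulo a prime `q ≥ 7`. -/
lemma sum_inv_pow_four {q : ℕ} (hq : q.Prime) (h7 : 7 ≤ q) :
    ∑ j ∈ range (q - 1), (((j : ZMod q) + 1)⁻¹) ^ 4 = 0 := by
  have : Fact q.Prime := ⟨hq⟩
  have h1 : ∑ x : (ZMod q)ˣ, ((x : ZMod q)) ^ 4 = 0 := by
    have := FiniteField.sum_pow_units (ZMod q) 4
    rw [ZMod.card, if_neg] at this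
    · simpa using this
    · intro h
      have := Nat.le_of_dvd (by norm_num) h
      omega
  have h2 : ∑ x : (ZMod q)ˣ, (((x⁻¹ : (ZMod q)ˣ) : ZMod q)) ^ 4 = 0 := by
    rw [← h1]
    exact Equiv.sum_comp (Equiv.inv _) fun x : (ZMod q)ˣ => ((x : ZMod q)) ^ 4
  rw [← h2]
  have hne : ∀ j ∈ range (q - 1), ((j : ZMod q) + 1) ≠ 0 := by
    intro j hj h
    rw [mem_range] at hj
    have h3 : ((j + 1 : ℕ) : ZMod q) = 0 := by push_cast; exact h
    rw [ZMod.natCast_eq_zero_iff] at h3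
    have := Nat.le_of_dvd (by omega) h3
    omega
  refine Finset.sum_bij (fun j hj => Units.mk0 ((j : ZMod q) + 1) (hne j hj)) ?_ ?_ ?_ ?_
  · intro j _; exact mem_univ _
  · intro i hi j hj h
    have h3 : ((i : ZMod q) + 1) = ((j : ZMod q) + 1) := by
      simpa using congrArg (Units.val) h
    have h4 : ((i : ℕ) : ZMod q) = ((j : ℕ) : ZMod q) := by simpa using h3
    rw [ZMod.natCast_eq_natCast_iff] at h4
    rw [mem_range] at hi hj
    exact Nat.ModEq.eq_of_lt_of_lt h4 (by omega) (by omega)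
  · intro x _
    have hx : (x : ZMod q).val ≠ 0 := by
      rw [Ne, ZMod.val_eq_zero]; exact x.ne_zero
    have hlt := ZMod.val_lt (x : ZMod q)
    refine ⟨(x : ZMod q).val - 1, by rw [mem_range]; omega, ?_⟩
    ext
    simp only [Units.val_mk0]
    have : (((x : ZMod q).val - 1 + 1 : ℕ) : ZMod q) = x := by
      rw [show (x : ZMod q).val - 1 + 1 = (x : ZMod q).val by omega]
      exact ZMod.natCast_zmod_val _
    push_cast at this
    exact this
  · intro j hj
    simp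

/-- `∑ (p j ^ (-4) - j ^ (-3)) = 0` modulo `p ^ 2`. -/
lemma main_sum (hp : (p + 1).Prime) (h5 : 5 ≤ p + 1) :
    ∑ j ∈ range p, (((p : ZMod ((p + 1) ^ 2)) - j) *
      (((j : ZMod ((p + 1) ^ 2)) + 1)⁻¹) ^ 4) = 0 := by
  set R := ZMod ((p + 1) ^ 2)
  have hsq : ((p : R) + 1) ^ 2 = 0 := by
    have : (((p + 1) ^ 2 : ℕ) : R) = 0 := ZMod.natCast_self _
    push_cast at this
    exact this
  -- the reflected sum
  have hrefl : ∑ j ∈ range p, (((p : R) - j) * (((j : R) + 1)⁻¹) ^ 4) =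
      ∑ j ∈ range p, (((j : R) + 1) * (((p : R) - j)⁻¹) ^ 4) := by
    rw [← Finset.sum_range_reflect]
    refine Finset.sum_congr rfl fun j hj => ?_
    rw [mem_range] at hj
    rw [show p - 1 - j = p - (j + 1) by omega, Nat.cast_sub (by omega)]
    push_cast
    congr 2
    · ring
    · congr 1; ring
  have hinv : ∀ j ∈ range p, ((p : R) - j)⁻¹ =
      -((j : R) + 1)⁻¹ * (1 + ((p : R) + 1) * ((j : R) + 1)⁻¹) := by
    intro j hj
    rw [mem_range] at hj
    have hu := unit_of hp hj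
    have hu2 : ((p : R) - j) * ((p : R) - j)⁻¹ = 1 := by
      have := unit_of hp (show p - 1 - j < p by omega)
      rw [show p - 1 - j = p - (j + 1) by omega, Nat.cast_sub (by omega)] at this
      push_cast at this
      rw [show (p : R) - ((j : R) + 1) + 1 = (p : R) - j by ring] at this
      exact this
    set y := ((j : R) + 1)⁻¹ with hy
    have h1 : ((p : R) - j) * (-y * (1 + ((p : R) + 1) * y)) = 1 := by
      have e : ((p : R) - j) = ((p : R) + 1) - ((j : R) + 1) := by ring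
      rw [e]
      linear_combination (1 + ((p : R) + 1) * y) * hu - y ^ 2 * hsq
    calc ((p : R) - j)⁻¹ = ((p : R) - j)⁻¹ * (((p : R) - j) * (-y * (1 + ((p : R) + 1) * y))) := by
          rw [h1, mul_one]
      _ = (((p : R) - j) * ((p : R) - j)⁻¹) * (-y * (1 + ((p : R) + 1) * y)) := by ring
      _ = -y * (1 + ((p : R) + 1) * y) := by rw [hu2, one_mul]
  have hpoint : ∀ j ∈ range p, (((p : R) - j) * (((j : R) + 1)⁻¹) ^ 4) +
      (((j : R) + 1) * (((p : R) - j)⁻¹) ^ 4) =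
      5 * (((p : R) + 1) * (((j : R) + 1)⁻¹) ^ 4) := by
    intro j hj
    rw [hinv j hj]
    rw [mem_range] at hj
    have hu := unit_of hp hj
    set y := ((j : R) + 1)⁻¹ with hy
    set P := (p : R) + 1 with hP
    have e : ((p : R) - j) = P - ((j : R) + 1) := by rw [hP]; ring
    rw [e]
    set x := (j : R) + 1 with hx
    have hP2 : P ^ 2 = 0 := hsq
    linear_combination (y ^ 3 * (1 + P * y) ^ 4 - y ^ 3) * hu +
      (y ^ 5 * (6 + 4 * P * y + P ^ 2 * y ^ 2)) * hP2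
  have h2 : 2 * ∑ j ∈ range p, (((p : R) - j) * (((j : R) + 1)⁻¹) ^ 4) =
      5 * (((p : R) + 1) * ∑ j ∈ range p, (((j : R) + 1)⁻¹) ^ 4) := by
    rw [two_mul]
    nth_rewrite 2 [hrefl]
    rw [← Finset.sum_add_distrib, Finset.mul_sum, Finset.mul_sum]
    exact Finset.sum_congr rfl hpoint
  have h3 : 5 * (((p : R) + 1) * ∑ j ∈ range p, (((j : R) + 1)⁻¹) ^ 4) = 0 := by
    by_cases h : p + 1 = 5
    · have h5' : (5 : R) = (p : R) + 1 := by
        have h50 : ∀ m : ℕ, m = 5 → (5 : R) = (m : R) := by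
          intro m hm; rw [hm]; rfl
        have := h50 (p + 1) h
        push_cast at this
        exact this
      rw [← mul_assoc, h5', ← pow_two, hsq, zero_mul]
    · have h7 : 7 ≤ p + 1 := by
        by_contra hlt
        have : p + 1 = 6 := by omega
        rw [this] at hp
        exact absurd hp (by norm_num)
      have h4 := mul_eq_zero_of_cast hp (∑ j ∈ range p, (((j : R) + 1)⁻¹) ^ 4) ?_
      · push_cast at h4
        rw [h4, mul_zero]
      · rw [map_sum]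
        have h6 := sum_inv_pow_four hp h7
        rw [show p + 1 - 1 = p by omega] at h6
        rw [← h6]
        refine Finset.sum_congr rfl fun j hj => ?_
        rw [mem_range] at hj
        have hu := unit_of hp hj
        have : Fact (p + 1).Prime := ⟨hp⟩
        rw [map_pow]
        congr 1
        set φ := ZMod.castHom (Dvd.intro_left ((p + 1) ^ 1) (by ring) : p + 1 ∣ (p + 1) ^ 2)
          (ZMod (p + 1)) with hφ
        have h8 := congrArg φ hu
        rw [map_mul, map_one, map_add, map_natCast, map_one] at h8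
        exact (eq_inv_of_mul_eq_one_right h8)
  rw [h3] at h2
  -- `2` is a unit
  have hc : Nat.Coprime 2 ((p + 1) ^ 2) := by
    apply Nat.Coprime.pow_right
    rw [Nat.coprime_comm, Nat.Prime.coprime_iff_not_dvd hp]
    intro h
    have := Nat.le_of_dvd (by omega) h
    omega
  have h9 := ZMod.coe_mul_inv_eq_one 2 hc
  push_cast at h9
  calc ∑ j ∈ range p, (((p : R) - j) * (((j : R) + 1)⁻¹) ^ 4)
      = (2 * 2⁻¹) * ∑ j ∈ range p, (((p : R) - j) * (((j : R) + 1)⁻¹) ^ 4) := by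
        rw [h9, one_mul]
    _ = 2⁻¹ * (2 * ∑ j ∈ range p, (((p : R) - j) * (((j : R) + 1)⁻¹) ^ 4)) := by ring
    _ = 0 := by rw [h2, mul_zero]

end

/-- **Bala's supercongruence**: `p ^ 5` divides `a(p) - 1` for every prime `p ≥ 5`. -/
theorem result (p : ℕ) (hp : p.Prime) (h5 : 5 ≤ p) : (p : ℤ) ^ 5 ∣ (a p : ℤ) - 1 := by
  obtain ⟨p, rfl⟩ : ∃ k, p = k + 1 := ⟨p - 1, by omega⟩
  rw [a_eq, add_sub_cancel_left]
  -- the summands are divisible by `p ^ 3`
  have hdvd : ∀ j ∈ range p, ∃ V : ℤ, T p j = ((p : ℤ) + 1) ^ 3 * V ∧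
      ((j : ℤ) + 1) ^ 4 * V = ((p : ℤ) - j) * A p j ^ 2 := by
    intro j hj
    rw [mem_range] at hj
    have h1 := T_eq p j
    have hcop : IsCoprime (((p : ℤ) + 1) ^ 3) (((j : ℤ) + 1) ^ 4) := by
      apply IsCoprime.pow
      have : IsCoprime ((p + 1 : ℕ) : ℤ) ((j + 1 : ℕ) : ℤ) := by
        rw [Nat.isCoprime_iff_coprime, Nat.Prime.coprime_iff_not_dvd hp]
        intro h
        have := Nat.le_of_dvd (by omega) h
        omega
      push_cast at this
      exact this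
    have h2 : ((p : ℤ) + 1) ^ 3 ∣ T p j := by
      apply hcop.dvd_of_dvd_mul_left
      rw [h1]
      exact Dvd.intro _ rfl
    obtain ⟨V, hV⟩ := h2
    refine ⟨V, hV, ?_⟩
    rw [hV] at h1
    have h3 : ((p : ℤ) + 1) ^ 3 ≠ 0 := by positivity
    apply mul_left_cancel₀ h3
    linarith
  choose! V hV1 hV2 using hdvd
  rw [Finset.sum_congr rfl hV1, ← Finset.mul_sum]
  have h1 : ((p : ℤ) + 1) ^ 2 ∣ ∑ j ∈ range p, V j := by
    have h2 : ((∑ j ∈ range p, V j : ℤ) : ZMod ((p + 1) ^ 2)) = 0 := by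
      rw [Int.cast_sum, ← main_sum hp h5]
      refine Finset.sum_congr rfl fun j hj => ?_
      have h3 := hV2 j hj
      rw [mem_range] at hj
      have hu := unit_of hp hj
      have hA := A_mod hp j hj.le
      have h4 := congrArg (Int.cast : ℤ → ZMod ((p + 1) ^ 2)) h3
      push_cast at h4
      rw [hA, mul_one] at h4
      rw [← h4]
      set x := (j : ZMod ((p + 1) ^ 2)) + 1
      calc ((V j : ℤ) : ZMod ((p + 1) ^ 2)) = (x * x⁻¹) ^ 4 * (V j : ℤ) := by
            rw [hu, one_pow, one_mul]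
        _ = _ := by ring
    have h3 := (ZMod.intCast_zmod_eq_zero_iff_dvd (∑ j ∈ range p, V j) ((p + 1) ^ 2)).mp h2
    push_cast at h3
    exact h3
  push_cast
  calc ((p : ℤ) + 1) ^ 5 = ((p : ℤ) + 1) ^ 3 * ((p : ℤ) + 1) ^ 2 := by ring
    _ ∣ _ := mul_dvd_mul_left _ h1

end Pool.Agent.Results.MP_558e64_nt.BalaSupercongruence
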